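import Mathlib
import Pool.Agent.H32.BT.Main

/-!
# A test for hyperbolicity in higher degree
-/

set_option autoImplicit false

namespace Pool.Agent.Results.MP_8f2e1c_an.BoundaryTest

open Polynomial

/-- The rational map `P/Q` of the Riemann sphere is hyperbolic, in the words of the frozen
statement `S05373`: the continuous extension `f` of `P/Q` to the sphere has every critical point
(point where `f` is not locally injective) attracted to an attracting periodic cycle. -/
def IsHyperbolic (P Q : Polynomial ℂ) : Prop :=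
  ∃ f : OnePoint ℂ → OnePoint ℂ, Continuous f ∧
    (∀ z : ℂ, Q.eval z ≠ 0 → f (OnePoint.some z) = OnePoint.some (P.eval z / Q.eval z)) ∧
    ∀ c : OnePoint ℂ, (¬ ∃ U ∈ nhds c, Set.InjOn f U) →
      ∃ z : OnePoint ℂ, ∃ n : ℕ, 0 < n ∧ f^[n] z = z ∧
        (∃ U ∈ nhds z, ∀ w ∈ U,
          Filter.Tendsto (fun k : ℕ => f^[n * k] w) Filter.atTop (nhds z)) ∧
        Filter.Tendsto (fun k : ℕ => f^[n * k] c) Filter.atTop (nhds z)

/-- All rational maps `P/Q` of degree exactly `d` with coefficients close enough to those of the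
(possibly degenerate) pair `(P0, Q0)` are hyperbolic. -/
def Robust (d : ℕ) (P0 Q0 : Polynomial ℂ) : Prop :=
  ∃ ρ : ℝ, 0 < ρ ∧ ∀ P Q : Polynomial ℂ, IsCoprime P Q → max P.natDegree Q.natDegree = d →
    (∀ i : ℕ, ‖P.coeff i - P0.coeff i‖ < ρ ∧ ‖Q.coeff i - Q0.coeff i‖ < ρ) → IsHyperbolic P Q

/-- Let `2 ≤ e < d` and let `A/B` be a rational map of degree exactly `e`.  Then `A/B` is hyperbolic
if and only if for some nonzero polynomial `H` of degree at most `d - e` all rational maps of degree
exactly `d` near the degenerate pair `(A H, B H)` are hyperbolic; and if `A/B` is hyperbolic, then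
this holds for a dense set of `H`. -/
theorem result (d e : ℕ) (he : 2 ≤ e) (hed : e < d) (A B : Polynomial ℂ) (hcop : IsCoprime A B)
    (hdeg : max A.natDegree B.natDegree = e) :
    (IsHyperbolic A B ↔
      ∃ H : Polynomial ℂ, H ≠ 0 ∧ H.natDegree ≤ d - e ∧ Robust d (A * H) (B * H)) ∧
    (IsHyperbolic A B → ∀ H : Polynomial ℂ, H.natDegree ≤ d - e → ∀ ε : ℝ, 0 < ε →
      ∃ H' : Polynomial ℂ, H'.natDegree = d - e ∧ (∀ i : ℕ, ‖H'.coeff i - H.coeff i‖ < ε) ∧
        Robust d (A * H') (B * H')) :=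
  Pool.Agent.H32.BT.boundary_test he hed hcop hdeg

end Pool.Agent.Results.MP_8f2e1c_an.BoundaryTest
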