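import Mathlib
import Pool.Agent.H32.BT.Main

/-!
# Fatou's conjecture and the boundary of the space of rational maps
-/

set_option autoImplicit false

namespace Pool.Agent.Results.MP_8f2e1c_an.FatouBoundary

open Polynomial

/-- The rational map `P/Q` of the Riemann sphere is hyperbolic, in the words of the frozen
statement `S05373`: the continuous extension `f` of `P/Q` to the sphere has every critical point
(point where `f` is not locally injective) attracted to an attracting periodic cycle. -/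
def IsHyperbolic (P Q : Polynomial ℂ) : Prop :=
  ∃ f : OnePoint ℂ → OnePoint ℂ, Continuous f ∧
    (∀ z : ℂ, Q.eval z ≠ 0 → f (OnePoint.some z) = OnePoint.some (P.eval z / Q.eval z)) ∧
    ∀ c : OnePoint ℂ, (¬ ∃ U ∈ nhds c, Set.InjOn f U) →
      ∃ z : OnePoint ℂ, ∃ n : ℕ, 0 < n ∧ f^[n] z = z ∧
        (∃ U ∈ nhds z, ∀ w ∈ U,
          Filter.Tendsto (fun k : ℕ => f^[n * k] w) Filter.atTop (nhds z)) ∧
        Filter.Tendsto (fun k : ℕ => f^[n * k] c) Filter.atTop (nhds z)

/-- Fatou's conjecture in degree `d`, in the words of the frozen statement `S05373`. -/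
def FatouDegree (d : ℕ) : Prop :=
  ∀ P Q : Polynomial ℂ, IsCoprime P Q → max P.natDegree Q.natDegree = d → ∀ ε : ℝ, 0 < ε →
    ∃ P' Q' : Polynomial ℂ, IsCoprime P' Q' ∧ max P'.natDegree Q'.natDegree = d ∧
      (∀ i : ℕ, ‖P'.coeff i - P.coeff i‖ < ε ∧ ‖Q'.coeff i - Q.coeff i‖ < ε) ∧ IsHyperbolic P' Q'

/-- `(P, Q)` lies in the boundary of the space of rational maps of degree `d`: it is a nonzero pair
of polynomials of degree at most `d` which is not coprime of degree exactly `d`. -/
def IsBoundary (d : ℕ) (P Q : Polynomial ℂ) : Prop :=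
  P.natDegree ≤ d ∧ Q.natDegree ≤ d ∧ (P ≠ 0 ∨ Q ≠ 0) ∧
    ¬ (IsCoprime P Q ∧ max P.natDegree Q.natDegree = d)

/-- All rational maps `P/Q` of degree exactly `d` with coefficients close enough to those of the
pair `(P0, Q0)` are hyperbolic. -/
def Robust (d : ℕ) (P0 Q0 : Polynomial ℂ) : Prop :=
  ∃ ρ : ℝ, 0 < ρ ∧ ∀ P Q : Polynomial ℂ, IsCoprime P Q → max P.natDegree Q.natDegree = d →
    (∀ i : ℕ, ‖P.coeff i - P0.coeff i‖ < ρ ∧ ‖Q.coeff i - Q0.coeff i‖ < ρ) → IsHyperbolic P Q

/-- The robust pairs are dense in the boundary of the space of rational maps of degree `d`. -/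
def BoundaryDense (d : ℕ) : Prop :=
  ∀ P Q : Polynomial ℂ, IsBoundary d P Q → ∀ ε : ℝ, 0 < ε →
    ∃ P' Q' : Polynomial ℂ, IsBoundary d P' Q' ∧
      (∀ i : ℕ, ‖P'.coeff i - P.coeff i‖ < ε ∧ ‖Q'.coeff i - Q.coeff i‖ < ε) ∧ Robust d P' Q'

/-- Hyperbolic maps are dense in degree `e ≥ 2` if and only if the robust pairs are dense in the
boundary of the space of rational maps of degree `e + 1`; the robust pairs are dense in the boundary
in degree `2`; hence Fatou's conjecture (all degrees) holds if and only if in every degree the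
robust pairs are dense in the boundary. -/
theorem result :
    (∀ e : ℕ, 2 ≤ e → (FatouDegree e ↔ BoundaryDense (e + 1))) ∧ BoundaryDense 2 ∧
      ((∀ d : ℕ, 2 ≤ d → FatouDegree d) ↔ ∀ d : ℕ, 2 ≤ d → BoundaryDense d) :=
  Pool.Agent.H32.BT.fatou_boundary

end Pool.Agent.Results.MP_8f2e1c_an.FatouBoundary
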