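import Pool.Agent.H32.BC.Main

set_option autoImplicit false

namespace Pool.Agent.H32.Old.GirthFive4ee899

open Pool.Agent.H29.Tor

/-- Every finite planar graph without 3-cycles and 4-cycles, on `n ≥ 2` vertices, has a proper
3-colouring in which every colour class has at most `n / 2` vertices. -/
theorem result : ∀ (V : Type) [Fintype V] (G : SimpleGraph V), IsPlanar G → G.CliqueFree 3 →
    (∀ a b c d, a ≠ c → b ≠ d → ¬ (G.Adj a b ∧ G.Adj b c ∧ G.Adj c d ∧ G.Adj d a)) →
    2 ≤ Fintype.card V →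
    ∃ c : G.Coloring (Fin 3), ∀ i, 2 * Nat.card {v // c v = i} ≤ Fintype.card V :=
  fun V _ G hG h3 h4 hn => Pool.Agent.H32.BC.main5 V G hG h3 h4 hn

end Pool.Agent.H32.Old.GirthFive4ee899
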