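import Mathlib
import Pool.Agent.H32.RC.Main

/-!
# The degenerate rational maps all of whose neighbours are hyperbolic
-/

set_option autoImplicit false

namespace Pool.Agent.H32.Old.RobustBoundary

open Polynomial

/-- `f` is the continuous extension of the rational map `P/Q` (`P`, `Q` coprime) to the Riemann
sphere. -/
def IsExtension (f : OnePoint ℂ → OnePoint ℂ) (P Q : Polynomial ℂ) : Prop :=
  Continuous f ∧ ∀ z : ℂ,
    (Q.eval z ≠ 0 → f (OnePoint.some z) = OnePoint.some (P.eval z / Q.eval z)) ∧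
    (Q.eval z = 0 → f (OnePoint.some z) = OnePoint.infty)

/-- `c` is a critical point of `f`: `f` is not locally injective at `c`. -/
def IsCritical (f : OnePoint ℂ → OnePoint ℂ) (c : OnePoint ℂ) : Prop :=
  ¬ ∃ U ∈ nhds c, Set.InjOn f U

/-- The orbit of `x` under `f` is attracted to an attracting periodic cycle. -/
def IsAttracted (f : OnePoint ℂ → OnePoint ℂ) (x : OnePoint ℂ) : Prop :=
  ∃ z : OnePoint ℂ, ∃ n : ℕ, 0 < n ∧ f^[n] z = z ∧
    (∃ U ∈ nhds z, ∀ w ∈ U,
      Filter.Tendsto (fun k : ℕ => f^[n * k] w) Filter.atTop (nhds z)) ∧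
    Filter.Tendsto (fun k : ℕ => f^[n * k] x) Filter.atTop (nhds z)

/-- The rational map `P/Q` is hyperbolic, in the words of the frozen statement `S05373`: every
critical point is attracted to an attracting periodic cycle. -/
def IsHyperbolic (P Q : Polynomial ℂ) : Prop :=
  ∃ f : OnePoint ℂ → OnePoint ℂ, Continuous f ∧
    (∀ z : ℂ, Q.eval z ≠ 0 → f (OnePoint.some z) = OnePoint.some (P.eval z / Q.eval z)) ∧
    ∀ c : OnePoint ℂ, (¬ ∃ U ∈ nhds c, Set.InjOn f U) →
      ∃ z : OnePoint ℂ, ∃ n : ℕ, 0 < n ∧ f^[n] z = z ∧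
        (∃ U ∈ nhds z, ∀ w ∈ U,
          Filter.Tendsto (fun k : ℕ => f^[n * k] w) Filter.atTop (nhds z)) ∧
        Filter.Tendsto (fun k : ℕ => f^[n * k] c) Filter.atTop (nhds z)

/-- All rational maps `P/Q` of degree exactly `d` with coefficients close enough to those of the
(possibly degenerate) pair `(P0, Q0)` are hyperbolic. -/
def Robust (d : ℕ) (P0 Q0 : Polynomial ℂ) : Prop :=
  ∃ ρ : ℝ, 0 < ρ ∧ ∀ P Q : Polynomial ℂ, IsCoprime P Q → max P.natDegree Q.natDegree = d →
    (∀ i : ℕ, ‖P.coeff i - P0.coeff i‖ < ρ ∧ ‖Q.coeff i - Q0.coeff i‖ < ρ) → IsHyperbolic P Q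

/-- `x` is a hole of the pair `(A H, B H)`, `H` of degree at most `k`: a zero of `H` on the sphere
(the point at infinity is a zero of order `k - deg H`). -/
def IsHole (k : ℕ) (H : Polynomial ℂ) (x : OnePoint ℂ) : Prop :=
  (∃ h : ℂ, x = OnePoint.some h ∧ H.eval h = 0) ∨ (x = OnePoint.infty ∧ H.natDegree < k)

/-- All holes are simple. -/
def SimpleHoles (k : ℕ) (H : Polynomial ℂ) : Prop :=
  (∀ h : ℂ, H.eval h = 0 → (derivative H).eval h ≠ 0) ∧ k ≤ H.natDegree + 1

/-- `f` has fixed points `a ≠ r` such that all orbits except that of `r` converge to `a`. -/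
def IsLoxodromic (f : OnePoint ℂ → OnePoint ℂ) : Prop :=
  ∃ a r : OnePoint ℂ, a ≠ r ∧ f a = a ∧ f r = r ∧
    ∀ x, x ≠ r → Filter.Tendsto (fun n : ℕ => f^[n] x) Filter.atTop (nhds a)

/-- Let `d ≥ 2` and let `(A H, B H)` be any nonzero pair of polynomials of degree at most `d`
(`A`, `B` coprime, `A/B` of degree `e`, `H ≠ 0` of degree at most `d - e`).  All rational maps of
degree `d` near the pair `(A H, B H)` are hyperbolic if and only if all critical points and all
holes are attracted by `A/B`, the `d - e` holes are simple, no hole lies in the strict forward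
orbit of a critical point or of a hole, and, if `e = 1`, the Möbius map `A/B` is loxodromic. -/
theorem result (d e : ℕ) (hd : 2 ≤ d) (hed : e ≤ d) (A B H : Polynomial ℂ)
    (hcop : IsCoprime A B) (hdeg : max A.natDegree B.natDegree = e) (hH0 : H ≠ 0)
    (hH : H.natDegree ≤ d - e) :
    Robust d (A * H) (B * H) ↔
      ∃ f : OnePoint ℂ → OnePoint ℂ, IsExtension f A B ∧
        (∀ c, IsCritical f c → IsAttracted f c) ∧ SimpleHoles (d - e) H ∧
        (∀ x, IsHole (d - e) H x → IsAttracted f x) ∧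
        (∀ (x y : OnePoint ℂ) (n : ℕ), (IsCritical f x ∨ IsHole (d - e) H x) →
          IsHole (d - e) H y → f^[n + 1] x ≠ y) ∧
        (e = 1 → IsLoxodromic f) :=
  Pool.Agent.H32.RC.robustH_iff_all hd hed hcop hdeg hH0 hH

end Pool.Agent.H32.Old.RobustBoundary
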